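import Pool.Agent.N549.JC.Cx

/-!
Power-type lower bounds for the digit complexity of the conjugates of an algebraic number.

For a single irrational algebraic number `z` and a base `b` the known lower bounds for the number
of digit changes among the first `N` digits are powers of `log N`, unless `b` is prime to a prime
all of whose prime divisors in `ℚ(z)` are ramified.  We prove lower bounds `c N ^ δ`
* jointly for the real and imaginary parts of all conjugates of `z`, for every algebraic number `z`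
  whose real and imaginary parts are not both rational, in all bases prime to some prime `p`;
  `p` can be any odd prime ramified in `ℚ(z)`;
* jointly for the conjugates of `z` if they are all real, in all bases prime to a prime ramified in
  `ℚ(z)`;
* jointly for any finite family of real algebraic numbers generating a number field `K`, in all
  bases prime to a prime all of whose prime divisors in `K` are ramified.
-/

set_option autoImplicit false

namespace Pool.Agent.Results.MP_f2f914_nt.JointConjugates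

open Polynomial Finset Filter NumberField IntermediateField

/-- For all expansions `x i = ∑_k g i k / b ^ k` with bounded integers `g i k` and all linear
relations `q_{i,0} g_{i,k} + … + q_{i,m} g_{i,k+m} = e_i` (one for every `i`) with integer
coefficients and `q_{i,0} + q_{i,1} b + … + q_{i,m} b ^ m ≠ 0` the total number (added up over all
`i`) of failures of these relations among the first `N` indices is at least `c N ^ δ` for all
large `N`, with some `c, δ > 0`. -/
def JointlyFail {ι : Type} [Fintype ι] (x : ι → ℝ) (b : ℕ) : Prop :=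
  ∀ (g : ι → ℕ → ℤ) (G : ℤ), (∀ i k, |g i k| ≤ G) →
    (∀ i, HasSum (fun k : ℕ => (g i k : ℝ) / (b : ℝ) ^ k) (x i)) →
    ∀ (m : ℕ) (q : ι → ℕ → ℤ) (e : ι → ℤ), (∀ i, ∑ j ∈ range (m + 1), q i j * (b : ℤ) ^ j ≠ 0) →
      ∃ c δ : ℝ, 0 < c ∧ 0 < δ ∧ ∀ᶠ N : ℕ in atTop, c * (N : ℝ) ^ δ ≤
        ((∑ i, ((range N).filter (fun k : ℕ =>
          ∑ j ∈ range (m + 1), q i j * g i (k + 1 + j) ≠ e i)).card : ℕ) : ℝ)

/-- the usual `k`-th base `b` digit of `x` after the point -/
noncomputable def digit (x : ℝ) (b k : ℕ) : ℤ := ⌊x * (b : ℝ) ^ k⌋ % (b : ℤ)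

/-- For every linear relation `q_0 a_k + … + q_m a_{k+m} = e` with integer coefficients and
`q_0 + q_1 b + … + q_m b ^ m ≠ 0` between consecutive digits (for instance `a_k = a_{k+1}`) there
are one index `i` and `c, δ > 0` such that for infinitely many `N` the relation fails for at least
`c N ^ δ` of the first `N` usual base `b` digits `a_1, …, a_N` of `x i`. -/
def OneFailsOften {ι : Type} (x : ι → ℝ) (b : ℕ) : Prop :=
  ∀ (m : ℕ) (q : ℕ → ℤ) (e : ℤ), ∑ j ∈ range (m + 1), q j * (b : ℤ) ^ j ≠ 0 →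
    ∃ (i : ι) (c δ : ℝ), 0 < c ∧ 0 < δ ∧ ∃ᶠ N : ℕ in atTop, c * (N : ℝ) ^ δ ≤
      (((range N).filter (fun k : ℕ =>
        ∑ j ∈ range (m + 1), q j * digit (x i) b (k + 1 + j) ≠ e)).card : ℝ)

/-- The real numbers `Re z'` and `Im z'`, where `z'` runs over the conjugates of `z`. -/
noncomputable def reIm (z : ℂ) (r : (minpoly ℚ z).rootSet ℂ × Bool) : ℝ :=
  cond r.2 (r.1 : ℂ).re (r.1 : ℂ).im

/-- The conjugates of a real number, all of which are real. -/
noncomputable def conj (z : ℝ) (r : (minpoly ℚ z).rootSet ℝ) : ℝ := r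

lemma jf {ι : Type} [Fintype ι] (x : ι → ℝ) (b : ℕ) (h : N549.JC.JointlyFail x b) :
    JointlyFail x b := h

lemma of {ι : Type} [Fintype ι] (x : ι → ℝ) (b : ℕ) (hb : 2 ≤ b) (h : N549.JC.JointlyFail x b) :
    OneFailsOften x b := N549.JC.one_of_joint x b hb h

/-- **Theorem.**

(1) Let `z` be a complex algebraic number whose real and imaginary parts are not both rational.
There is a prime `p` such that in every base `b ≥ 2` not divisible by `p` the real and imaginary
parts of the conjugates of `z` jointly fail all linear relations between consecutive digits with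
the power rate `c N ^ δ` (for all expansions with bounded integer digits); in particular, for the
usual digits, one of them does so for infinitely many `N`.

(2) In (1) one can take every odd prime `p` which is ramified in `ℚ(z)`, i.e. `p ∈ P ^ 2` for some
prime ideal `P` containing `p`.

(3) Let `z` be a real algebraic number all of whose conjugates are real. For every prime `p` which
is ramified in `ℚ(z)` the same holds for the conjugates of `z`, in every base `b ≥ 2` not divisible
by `p`; if `z` is irrational there is such a prime.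

(4) Let `x_1, …, x_r` be real algebraic numbers and `K = ℚ(x_1, …, x_r)`. If `p` is a prime such
that `p ∈ P ^ 2` for every prime ideal `P` of the ring of integers of `K` containing `p`, then the
same holds for `x_1, …, x_r` in every base `b ≥ 2` not divisible by `p`. -/
theorem result :
    (∀ z : ℂ, IsAlgebraic ℚ z → ¬ ((∃ a : ℚ, z.re = a) ∧ ∃ a : ℚ, z.im = a) →
      ∃ p : ℕ, p.Prime ∧ ∀ b : ℕ, 2 ≤ b → ¬ p ∣ b →
        JointlyFail (reIm z) b ∧ OneFailsOften (reIm z) b) ∧
    (∀ z : ℂ, IsAlgebraic ℚ z → ∀ p : ℕ, p.Prime → p ≠ 2 →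
      (∃ P : Ideal (𝓞 ℚ⟮z⟯), P.IsPrime ∧ (p : 𝓞 ℚ⟮z⟯) ∈ P ∧ (p : 𝓞 ℚ⟮z⟯) ∈ P ^ 2) →
      ∀ b : ℕ, 2 ≤ b → ¬ p ∣ b → JointlyFail (reIm z) b ∧ OneFailsOften (reIm z) b) ∧
    (∀ z : ℝ, IsAlgebraic ℚ z → ((minpoly ℚ z).map (algebraMap ℚ ℝ)).Splits →
      (∀ p : ℕ, p.Prime →
        (∃ P : Ideal (𝓞 ℚ⟮z⟯), P.IsPrime ∧ (p : 𝓞 ℚ⟮z⟯) ∈ P ∧ (p : 𝓞 ℚ⟮z⟯) ∈ P ^ 2) →
        ∀ b : ℕ, 2 ≤ b → ¬ p ∣ b → JointlyFail (conj z) b ∧ OneFailsOften (conj z) b) ∧
      (Irrational z → ∃ p : ℕ, p.Prime ∧
        (∃ P : Ideal (𝓞 ℚ⟮z⟯), P.IsPrime ∧ (p : 𝓞 ℚ⟮z⟯) ∈ P ∧ (p : 𝓞 ℚ⟮z⟯) ∈ P ^ 2))) ∧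
    (∀ (ι : Type) [Fintype ι] (x : ι → ℝ), (∀ i, IsAlgebraic ℚ (x i)) → ∀ p : ℕ, p.Prime →
      (∀ P : Ideal (𝓞 (adjoin ℚ (Set.range x))), P.IsPrime →
        (p : 𝓞 (adjoin ℚ (Set.range x))) ∈ P → (p : 𝓞 (adjoin ℚ (Set.range x))) ∈ P ^ 2) →
      ∀ b : ℕ, 2 ≤ b → ¬ p ∣ b → JointlyFail x b ∧ OneFailsOften x b) := by
  refine ⟨?_, ?_, ?_, ?_⟩
  · intro z hz hz'
    obtain ⟨p, hp, h⟩ := N549.JC.exists_prime_complex z hz hz'
    exact ⟨p, hp, fun b hb hpb => ⟨jf _ b (h b hb hpb), of _ b hb (h b hb hpb)⟩⟩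
  · intro z hz p hp hp2 ⟨P, hP, hpP, hpP2⟩ b hb hpb
    have h := N549.JC.joint_complex z hz p hp hp2 P hP hpP hpP2 b hb hpb
    exact ⟨jf _ b h, of _ b hb h⟩
  · intro z hz hsp
    refine ⟨?_, ?_⟩
    · intro p hp ⟨P, hP, hpP, hpP2⟩ b hb hpb
      have h := N549.JC.joint_real z hz hsp p hp P hP hpP hpP2 b hb hpb
      exact ⟨jf _ b h, of _ b hb h⟩
    · intro hirr
      have hnf : NumberField ℚ⟮z⟯ := N549.JC.nf_simple_real z hz
      have hrank : Module.finrank ℚ ℚ⟮z⟯ ≠ 1 := by
        intro h3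
        have h4 := finrank_eq_one_iff.1 h3
        have h5 : z ∈ (⊥ : IntermediateField ℚ ℝ) := by
          rw [← h4]
          exact mem_adjoin_simple_self ℚ z
        rw [IntermediateField.mem_bot] at h5
        obtain ⟨q, hq⟩ := h5
        exact hirr ⟨q, hq⟩
      obtain ⟨P, hPm, hun⟩ := NumberField.exists_not_isUnramifiedAt_int (K := ℚ⟮z⟯)
        (𝒪 := 𝓞 ℚ⟮z⟯) hrank
      have hP : P.IsPrime := hPm.isPrime
      have hP0 : P ≠ ⊥ := Ring.ne_bot_of_isMaximal_of_not_isField hPm
        (RingOfIntegers.not_isField ℚ⟮z⟯)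
      obtain ⟨p, hp, hpP⟩ := N549.JC.exists_prime_mem ℚ⟮z⟯ P hP0
      exact ⟨p, hp, P, hP, hpP,
        H323R2.mem_sq_of_not_unramified ℚ⟮z⟯ p hp P hP hpP hun⟩
  · intro ι _ x hx p hp hram b hb hpb
    have hnf : NumberField (adjoin ℚ (Set.range x)) :=
      N549.JC.nf_adjoin_real _ (Set.finite_range x) (by rintro _ ⟨i, rfl⟩; exact hx i)
    have h := N549.JC.joint_of_ram x (adjoin ℚ (Set.range x)) rfl (adjoin ℚ (Set.range x))
      (RingHom.id _) p hp hram b hb hpb
    exact ⟨jf _ b h, of _ b hb h⟩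

end Pool.Agent.Results.MP_f2f914_nt.JointConjugates
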