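import Pool.Agent.N710.LD.Avg

/-!
# Rational translates of algebraic numbers are nearly normal in most windows and at most stages

Let `x` be a real number (for instance an algebraic irrational one), `S` a finite set of primes and `𝓑`
a finite set of bases which are not divisible by primes of `S`. We look at the translates `x + r`,
where the prime factors of the denominator of `r` are in `S`, modulo one. The starting result
`MP_f2f914_nt.RationalTranslates` shows that all but `K(ε)` of them are normal up to `ε` at infinitely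
many (possibly very rare) stages. Here we show that they are nearly normal at most stages, in the
sense of the upper logarithmic density and of any other averages, and in most windows, even if the
lengths of the windows grow arbitrarily slowly:

* in an average (any weights `w t n ≥ 0` with sum one, `w t n → 0` as `t → ∞`) over any sequence of
  windows `u n < i ≤ u n + L n` of digits with `L n → ∞`, all but `K(ε) / δ` of any finitely many
  translates are `ε`-equidistributed outside of windows of total weight `δ`. This holds for all large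
  `t`, uniformly in the real number `x`;
* for all the numbers `x` of a countable set (for instance all real algebraic numbers) and all `ε, δ`
  one sequence of scales `t` does, with the number of exceptional classes at most `K(ε) / δ`;
* for all but `K(ε) / δ` of the classes, `x + r` is normal up to `ε` at all stages `N` outside of a set
  of lower logarithmic density at most `δ`. So there are algebraic irrational numbers (in every coset
  `x + ℚ`, in every interval) which are normal up to `ε`, in many bases, at a set of stages of upper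
  logarithmic density at least `1 - ε`.

Proof: for a fixed window of length at least `N₀(m)` at most `K(ε)` of the translates `x + a / m` fail;
`N₀(m)` depends neither on the place of the window nor on `x` (multiplication by `b ^ u` permutes the
classes). Count the pairs (translate, bad window) with weights. For the second part take limits along
an ultrafilter.
-/

set_option autoImplicit false

open Filter Topology

namespace Pool.Agent.Results.MP_f2f914_nt.MostWindows

/-- `z` is equidistributed in base `b` in the window of the places `u < i ≤ u + N`, with an error of at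
most `E`: for all `n ≤ N` and all intervals `[α, β)` in `[0, 1]` the number of `u < i ≤ u + n` for
which the fractional part of `z b ^ i` lies in `[α, β)` differs from `(β - α) n` by at most `E` -/
def WindowDiscrepancy (b u N : ℕ) (E z : ℝ) : Prop :=
  ∀ n : ℕ, n ≤ N → ∀ α β : ℝ, 0 ≤ α → α < β → β ≤ 1 →
    |(((Finset.Ioc u (u + n)).filter (fun i : ℕ => α ≤ Int.fract (z * (b : ℝ) ^ i) ∧
      Int.fract (z * (b : ℝ) ^ i) < β)).card : ℝ) - (β - α) * n| ≤ E

/-- the numbers `n` of the windows `u n < i ≤ u n + L n` in which `z` is not equidistributed up to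
`ε L n` in all the bases `b ∈ 𝓑` -/
def BadWindows (𝓑 : Finset ℕ) (u L : ℕ → ℕ) (ε z : ℝ) : Set ℕ :=
  {n | ¬ ∀ b ∈ 𝓑, WindowDiscrepancy b (u n) (L n) (ε * L n) z}

/-- the weight of a set of windows -/
noncomputable def weight (w : ℕ → ℝ) (B : Set ℕ) : ℝ := ∑' n, B.indicator w n

open Classical in
/-- Let `S` be a finite set of primes and `𝓑` a finite set of bases `b ≥ 2` which are not divisible by
the primes of `S` (`Nat.factoredNumbers S` is the set of the `m ≥ 1` with all prime factors in `S`).
There is `C` with the following properties.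
(1) For all windows `u n < i ≤ u n + L n` with `L n → ∞`, all weights `w t n ≥ 0` with sum one over
`n` and `w t n → 0` for `t → ∞`, and all finite sets `T` of rational numbers `0 ≤ r < 1` with
denominators composed of primes of `S`, for all large `t` (uniformly in `x`, `ε`, `δ`): for all real
`x` and `0 < ε ≤ 1`, `δ > 0`, the number of `r ∈ T` such that the bad windows of `x + r` have weight at
least `δ` is at most `C ((1 + log (1 / ε)) / ε) ^ 2 / δ`.
(2) For every countable set `X` of real numbers (for instance the set of all real algebraic numbers)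
there are scales `φ 0 < φ 1 < …` such that for all `x ∈ X`, `0 < ε ≤ 1` and `δ > 0`, for all but at most
`C ((1 + log (1 / ε)) / ε) ^ 2 / δ` of the classes modulo one of the rationals `r` with denominators
composed of primes of `S`, the weight at the scale `φ j` of the bad windows of `x + r` is less than
`δ` for all large `j`.
(3) Stages and the logarithmic density: for all real `x`, `0 < ε ≤ 1` and `δ > 0`, for all but at most
`C ((1 + log (1 / ε)) / ε) ^ 2 / δ` of these classes there are infinitely many `M` such that the sum of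
`1 / N` over the `N ≤ M` at which `x + r` is not normal up to `ε N` (in all bases of `𝓑`) is less than
`δ (1 + 1 / 2 + ⋯ + 1 / M)`. -/
theorem result (S 𝓑 : Finset ℕ) (hS : ∀ q ∈ S, q.Prime)
    (h𝓑 : ∀ b ∈ 𝓑, 2 ≤ b ∧ ∀ q ∈ S, ¬ q ∣ b) :
    ∃ C : ℝ,
    (∀ (u L : ℕ → ℕ) (w : ℕ → ℕ → ℝ), Tendsto L atTop atTop → (∀ t n, 0 ≤ w t n) →
      (∀ t, HasSum (w t) 1) → (∀ n, Tendsto (fun t => w t n) atTop (𝓝 0)) →
      (∀ T : Finset ℚ, (∀ r ∈ T, 0 ≤ r ∧ r < 1 ∧ r.den ∈ Nat.factoredNumbers S) →
        ∀ᶠ t in atTop, ∀ x ε δ : ℝ, 0 < ε → ε ≤ 1 → 0 < δ →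
          ((T.filter fun r : ℚ => δ ≤ weight (w t) (BadWindows 𝓑 u L ε (x + r))).card : ℝ) ≤
            C * ((1 + Real.log (1 / ε)) / ε) ^ 2 / δ) ∧
      (∀ X : Set ℝ, X.Countable → ∃ φ : ℕ → ℕ, StrictMono φ ∧ ∀ x ∈ X, ∀ ε δ : ℝ, 0 < ε → ε ≤ 1 →
        0 < δ → ∃ E : Finset ℚ, (E.card : ℝ) ≤ C * ((1 + Real.log (1 / ε)) / ε) ^ 2 / δ ∧
          ∀ r : ℚ, r.den ∈ Nat.factoredNumbers S → Int.fract r ∉ E →
            ∀ᶠ j in atTop, weight (w (φ j)) (BadWindows 𝓑 u L ε (x + r)) < δ)) ∧
    (∀ x ε δ : ℝ, 0 < ε → ε ≤ 1 → 0 < δ →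
      ∃ E : Finset ℚ, (E.card : ℝ) ≤ C * ((1 + Real.log (1 / ε)) / ε) ^ 2 / δ ∧
        ∀ r : ℚ, r.den ∈ Nat.factoredNumbers S → Int.fract r ∉ E →
          ∃ᶠ M : ℕ in atTop,
            ∑ N ∈ (Finset.Icc 1 M).filter (fun N : ℕ =>
              ¬ ∀ b ∈ 𝓑, WindowDiscrepancy b 0 N (ε * N) (x + r)), 1 / (N : ℝ) <
                δ * ∑ N ∈ Finset.Icc 1 M, 1 / (N : ℝ)) := by
  obtain ⟨C₁, h₁⟩ := Pool.Agent.N710.LD.unif S 𝓑 hS h𝓑
  obtain ⟨C₂, h₂⟩ := Pool.Agent.N710.LD.main S 𝓑 hS h𝓑
  have hmono : ∀ C C' ε δ : ℝ, C ≤ C' → 0 < δ → C * ((1 + Real.log (1 / ε)) / ε) ^ 2 / δ ≤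
      C' * ((1 + Real.log (1 / ε)) / ε) ^ 2 / δ := by
    intro C C' ε δ h hδ
    exact div_le_div_of_nonneg_right (mul_le_mul_of_nonneg_right h (sq_nonneg _)) hδ.le
  refine ⟨max C₁ C₂, fun u L w hL h0 hs ht => ⟨fun T hT => ?_, fun X hX => ?_⟩, ?_⟩
  · filter_upwards [h₁ u L w hL h0 hs ht T hT] with t h x ε δ hε hε1 hδ
    exact (h x ε δ hε hε1 hδ _ (Finset.filter_subset _ _)
      fun r hr => (Finset.mem_filter.1 hr).2).trans (hmono _ _ _ _ (le_max_left _ _) hδ)
  · obtain ⟨φ, hφ, h⟩ := h₂ u L w hL h0 hs ht X hX
    refine ⟨φ, hφ, fun x hx ε δ hε hε1 hδ => ?_⟩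
    obtain ⟨E, hE, h'⟩ := h x hx ε δ hε hε1 hδ
    exact ⟨E, hE.trans (hmono _ _ _ _ (le_max_right _ _) hδ), h'⟩
  · intro x ε δ hε hε1 hδ
    obtain ⟨φ, hφ, h⟩ := h₂ (fun _ => 0) id Pool.Agent.N710.LD.lw tendsto_id
      Pool.Agent.N710.LD.lw_nonneg Pool.Agent.N710.LD.lw_one Pool.Agent.N710.LD.lw_tendsto {x}
      (Set.countable_singleton x)
    obtain ⟨E, hE, h'⟩ := h x rfl ε δ hε hε1 hδ
    refine ⟨E, hE.trans (hmono _ _ _ _ (le_max_right _ _) hδ), fun r hr hrE => ?_⟩
    have h3 := (h' r hr hrE).frequently
    have h4 : Tendsto (fun j => φ j + 1) atTop atTop :=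
      (tendsto_add_atTop_nat 1).comp hφ.tendsto_atTop
    refine h4.frequently (h3.mono fun j hj => ?_)
    rw [Pool.Agent.N710.LD.lw_hasSum, div_lt_iff₀ (Pool.Agent.N710.LD.harm_pos _)] at hj
    refine lt_of_eq_of_lt ?_ hj
    exact Finset.sum_congr (Finset.filter_congr fun N _ => Iff.rfl) fun _ _ => rfl

end Pool.Agent.Results.MP_f2f914_nt.MostWindows
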