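import Pool.Agent.N915.WT.Final

/-! # Normality is the frequency of one word in all rational translates

Let `b ≥ 2` and let `w` be one fixed non-empty word over the digits in base `b`. A real number `x` is
normal in base `b` if and only if in every rational translate `x + r` the word `w` has lower density at
least `b ^ (-|w|)`, i.e. if and only if no rational translate of `x` has a deficiency of `w`. The same
holds with an excess of `w`. Hence the irrational numbers in a real number field `K` are all normal in
base `b` if and only if none of them has a deficiency of one fixed word, for instance of the digit `0`,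
and a real quadratic irrational number `α` is normal in base `b` if and only if no irrational number in
`ℚ(α)` has a deficiency of the digit `0`.

If `x` is not normal, the deficient translates are not rare: a positive proportion of the translates
`x + p / (b ^ k - 1)`, `0 ≤ p < b ^ k - 1`, has a deficiency of at least `c / √k`, and a positive
proportion has an excess of at least `c / √k`, for all large `k`, where `c` does not depend on `x`.

Proof. The digits of `p / (b ^ k - 1)` have period `k`, so the frequency of `w` in `x + p / (b ^ k - 1)`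
splits into the `k` classes modulo `k`, and the mean over `p` of the deviations up to `N` vanishes up to
`O(N / b ^ k)`. The discrete Fourier transform over `p` of the deviations is, at the frequencies
`s b ^ i`, an exponential sum over one class modulo `k`, hence the second moment of the deviations is at
least `c ‖∑_{n ≤ N} exp(2πi s b ^ n x)‖ ^ 2 / k`, while the fourth moment is at most `C N ^ 4 / k ^ 2`.
The Paley–Zygmund inequality gives a positive proportion of both signs, at stages `N` at which an
exponential sum is large. An inequality of Erdős–Turán type and the theorem of Wall finish the proof.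
-/

set_option autoImplicit false

open Filter Topology IntermediateField

namespace Pool.Agent.Results.MP_f2f914_nt.OneWordInTranslates

/-- the number of `1 ≤ n ≤ N` for which the fractional part of `x b ^ n` lies in `[s, t)` -/
noncomputable def visits (b : ℕ) (x s t : ℝ) (N : ℕ) : ℕ :=
  ((Finset.Icc 1 N).filter fun n : ℕ =>
    s ≤ Int.fract (x * (b : ℝ) ^ n) ∧ Int.fract (x * (b : ℝ) ^ n) < t).card

/-- the number of `1 ≤ n ≤ N` such that the word of length `l` with value `a < b ^ l` (its digits in
base `b` are those of `a`, with leading zeros) occurs in the expansion of `x` in base `b` immediately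
after the `n`-th digit; that is, the fractional part of `x b ^ n` lies in
`[a / b ^ l, (a + 1) / b ^ l)`. For `l = 1` this counts the digit `a` -/
noncomputable def occ (b l a : ℕ) (x : ℝ) (N : ℕ) : ℕ :=
  visits b x ((a : ℝ) / (b : ℝ) ^ l) (((a : ℝ) + 1) / (b : ℝ) ^ l) N

/-- `x` is normal in base `b`: the sequence `(x b ^ n)_{n ≥ 1}` is equidistributed modulo one -/
def IsNormal (b : ℕ) (x : ℝ) : Prop := ∀ s t : ℝ, 0 ≤ s → s < t → t ≤ 1 →
  Tendsto (fun N : ℕ => (visits b x s t N : ℝ) / (N : ℝ)) atTop (𝓝 (t - s))

/-- `x` is normal in base `b` up to the error `η`: for all large `N` and all intervals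
`[s, t) ⊆ [0, 1)` the number of visits to `[s, t)` up to `N` differs from `(t - s) N` by at most
`η N` -/
def NormalUpTo (b : ℕ) (η x : ℝ) : Prop := ∀ᶠ N : ℕ in atTop, ∀ s t : ℝ, 0 ≤ s → s < t → t ≤ 1 →
  |(visits b x s t N : ℝ) - (t - s) * N| ≤ η * N

/-- the lower density of the word is at least `1 / b ^ l`, its frequency in a random number -/
def LowerGe (b l a : ℕ) (x : ℝ) : Prop :=
  ∀ ε : ℝ, 0 < ε → ∀ᶠ N : ℕ in atTop, (1 / (b : ℝ) ^ l - ε) * N ≤ (occ b l a x N : ℝ)

/-- the upper density of the word is at most `1 / b ^ l` -/
def UpperLe (b l a : ℕ) (x : ℝ) : Prop :=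
  ∀ ε : ℝ, 0 < ε → ∀ᶠ N : ℕ in atTop, (occ b l a x N : ℝ) ≤ (1 / (b : ℝ) ^ l + ε) * N

/-- the word has a deficiency of at least `τ`: its density up to `N` is at most `1 / b ^ l - τ` for
infinitely many `N` -/
def Rare (b l a : ℕ) (τ x : ℝ) : Prop :=
  ∃ᶠ N : ℕ in atTop, (occ b l a x N : ℝ) ≤ (1 / (b : ℝ) ^ l - τ) * N

/-- the word has an excess of at least `τ`: its density up to `N` is at least `1 / b ^ l + τ` for
infinitely many `N` -/
def Abundant (b l a : ℕ) (τ x : ℝ) : Prop :=
  ∃ᶠ N : ℕ in atTop, (1 / (b : ℝ) ^ l + τ) * N ≤ (occ b l a x N : ℝ)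

open Classical in
/-- Let `b ≥ 2` and let `w` be one word of length `l ≥ 1` over the digits in base `b`, with value
`a < b ^ l`.
(1) For every `η > 0` there are `c > 0` and `k₀` such that, for every real `x` which is not normal in
base `b` up to the error `η` and all `k ≥ k₀`, at least `c b ^ k` of the `b ^ k - 1` translates
`x + p / (b ^ k - 1)` with `0 ≤ p < b ^ k - 1` have a deficiency of `w` of at least `c / √k`, and at
least `c b ^ k` of them have an excess of `w` of at least `c / √k`.
(2) Every real `x` is normal in base `b` if and only if `w` has lower density at least `b ^ (-l)` in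
`x + r` for all rational `r`, and if and only if `w` has upper density at most `b ^ (-l)` in `x + r` for
all rational `r`.
(3) For every subfield `K` of the real numbers all irrational numbers in `K` are normal in base `b` if
and only if `w` has lower density at least `b ^ (-l)` in all of them, and if and only if `w` has upper
density at most `b ^ (-l)` in all of them.
(4) A real quadratic irrational number `α` is normal in base `b` if and only if `w` has lower density at
least `b ^ (-l)` in all irrational numbers in `ℚ(α)`. -/
theorem result (b l a : ℕ) (hb : 2 ≤ b) (hl : 1 ≤ l) (ha : a < b ^ l) :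
    (∀ η : ℝ, 0 < η → ∃ c : ℝ, 0 < c ∧ ∃ k₀ : ℕ, 1 ≤ k₀ ∧ ∀ x : ℝ, ¬ NormalUpTo b η x →
      ∀ k : ℕ, k₀ ≤ k →
        c * b ^ k ≤ (((Finset.range (b ^ k - 1)).filter fun p : ℕ =>
          Rare b l a (c / √k) (x + p / ((b : ℝ) ^ k - 1))).card : ℝ) ∧
        c * b ^ k ≤ (((Finset.range (b ^ k - 1)).filter fun p : ℕ =>
          Abundant b l a (c / √k) (x + p / ((b : ℝ) ^ k - 1))).card : ℝ)) ∧
    (∀ x : ℝ, (IsNormal b x ↔ ∀ r : ℚ, LowerGe b l a (x + r)) ∧
      (IsNormal b x ↔ ∀ r : ℚ, UpperLe b l a (x + r))) ∧
    (∀ K : IntermediateField ℚ ℝ,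
      ((∀ y ∈ K, Irrational y → IsNormal b y) ↔ ∀ y ∈ K, Irrational y → LowerGe b l a y) ∧
      ((∀ y ∈ K, Irrational y → IsNormal b y) ↔ ∀ y ∈ K, Irrational y → UpperLe b l a y)) ∧
    (∀ α : ℝ, (minpoly ℚ α).natDegree = 2 →
      (IsNormal b α ↔ ∀ y ∈ ℚ⟮α⟯, Irrational y → LowerGe b l a y)) := by
  refine ⟨fun η hη => ?_, fun x => ⟨?_, ?_⟩, fun K => ⟨?_, ?_⟩, fun α hα => ?_⟩
  · obtain ⟨c, hc, k₀, hk₀, h⟩ := Pool.Agent.N915.WT.main hb hl ha η hη
    refine ⟨c, hc, k₀, hk₀, fun x hx k hk => ⟨?_, ?_⟩⟩
    · by_contra hcon
      exact hx (h x k hk (Or.inl (not_le.1 hcon)))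
    · by_contra hcon
      exact hx (h x k hk (Or.inr (not_le.1 hcon)))
  · exact Pool.Agent.N915.WT.iff_lower hb hl ha x
  · exact Pool.Agent.N915.WT.iff_upper hb hl ha x
  · exact Pool.Agent.N915.WT.field_lower hb hl ha K
  · exact Pool.Agent.N915.WT.field_upper hb hl ha K
  · exact Pool.Agent.N915.WT.quadratic hb hl ha hα

end Pool.Agent.Results.MP_f2f914_nt.OneWordInTranslates
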