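import Pool.Agent.N586.AN.Tot3
import Pool.Agent.N586.AN.Br
import Pool.Agent.N586.AN.Cnt
import Pool.Agent.N586.AN.Sh
import Pool.Agent.N586.AN.Alg
import Pool.Agent.N586.AN.Vm
import Pool.Agent.N586.AN.Nrm2
import Pool.Agent.N586.AN.Fin3

/-!
# Almost all real algebraic numbers of degree `d` are normal up to `(log H) ^ (3 / 2 - ε)` digits

The real algebraic numbers `x` of degree `d ≥ 2` are ordered by their height `H`, the largest absolute
value of a coefficient of the minimal polynomial over the integers; there are at least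
`c H ^ (d + 1) / log H` of them. Let `δ, β > 0` with `2 δ + β < 1`. For all `B`, `w` and `ε > 0` and all
large `H`, for all of these numbers, except for a proportion `exp (-(log H) ^ β)`, the following holds:
every irrational element `y` of the number field `ℚ(x)` of the form `y = f(x) / m`, where `f` is an
integral polynomial with `1 ≤ deg f < d` and `m` and the coefficients of `f` are at most
`exp ((log H) ^ β)` (for instance `y = x, x ^ 2, …, x ^ (d - 1)`), has, in every base `b ≤ B`, all words
of at most `w` digits with the right frequency in every window of its first `(log H) ^ (1 + δ)` digits,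
up to `ε N + ε log H`, where `N` is the length of the window.

The number of digits is larger than any multiple of `log H`, the size of the input.

Proof. The exponential sums of `e(θ f(x) / m)` over all `x` of height at most `H` are bounded for all
`θ` up to `exp ((log H) ^ (1 + δ))`. For `θ` up to `H ^ 3` this is van der Corput's test. For larger
`θ` the pairs (polynomial `P`, real root `x`) are moved along the lines `P + n (v + V X)`,
`V = √H`, `n = a b` with `a, b ≤ H ^ (39 / 200)`, where the integer `v` is chosen such that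
`1 ≤ v + V x < 2`. For nearly all pairs the root is an analytic function of `n` on a complex disc of
radius `|P'(x)| / (4 V)`, which is nearly `x - n w / (P'(x) + n V)`, so that all the first
`C (log H) ^ δ` Taylor coefficients of `f(x) / m` as a function of `n` have the right size; this is
what Vinogradov's method for the bilinear sums over `a` and `b` needs. The bound
`exp (-c (log H) ^ (1 - 2 δ))` comes from the mean value theorem with constants `exp (C k ^ 4)`.
-/

set_option autoImplicit false

namespace Pool.Agent.Results.MP_f2f914_nt.SuperlogAlgebraicNumbers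

open Polynomial

/-- the real algebraic numbers of degree `d` and height at most `H`: the real roots of the
irreducible integral polynomials of degree `d` with all coefficients at most `H` in absolute value -/
def AlgNumbers (d H : ℕ) : Set ℝ :=
  {x | ∃ P : ℤ[X], Irreducible P ∧ P.natDegree = d ∧ (∀ i, |P.coeff i| ≤ H) ∧ aeval x P = 0}

/-- the word of the `k` digits in base `b` of `y` which follow the first `n` digits after the point,
read as an integer between `0` and `b ^ k - 1` -/
noncomputable def word (b k n : ℕ) (y : ℝ) : ℕ :=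
  ⌊(b : ℝ) ^ k * Int.fract ((b : ℝ) ^ n * y)⌋₊

/-- in every base `2 ≤ b ≤ B` the number of occurrences of every word of `1 ≤ k ≤ w` digits at the
`N` places `s, …, s + N - 1` of `y`, for every window with `s + N ≤ L`, differs from `N / b ^ k` by
at most `ε N + E` -/
def NormalIn (B w : ℕ) (L ε E : ℝ) (y : ℝ) : Prop :=
  ∀ b k j s N : ℕ, 2 ≤ b → b ≤ B → 1 ≤ k → k ≤ w → j < b ^ k → (s : ℝ) + N ≤ L →
    |(({i : ℕ | i < N ∧ word b k (s + i) y = j}.ncard : ℕ) : ℝ) - N / (b : ℝ) ^ k| ≤ ε * N + E

/-- `1 ≤ deg f < d`, and `m ≥ 1` and the absolute values of the coefficients of the integral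
polynomial `f` are at most `exp ((log H) ^ β)` -/
def Small (d H : ℕ) (β : ℝ) (f : ℤ[X]) (m : ℕ) : Prop :=
  1 ≤ f.natDegree ∧ f.natDegree < d ∧
    (∀ i, |(f.coeff i : ℝ)| ≤ Real.exp ((Real.log H) ^ β)) ∧ 1 ≤ m ∧
    (m : ℝ) ≤ Real.exp ((Real.log H) ^ β)

/-- Let `d ≥ 2` and `δ, β > 0` with `2 δ + β < 1`. For all `B`, `w`, `ε > 0` and all large `H`: for
all real algebraic numbers `x` of degree `d` and height at most `H` except for a proportion of at
most `exp (-(log H) ^ β)` of them, every `y = f(x) / m` with `Small d H β f m` satisfies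
`NormalIn B w ((log H) ^ (1 + δ)) ε (ε log H) y`. The number of real algebraic numbers of degree `d`
and height at most `H` is at least `H ^ (d + 1) / (C log H)`. -/
theorem result (d : ℕ) (hd : 2 ≤ d) (δ β : ℝ) (hδ : 0 < δ) (hβ : 0 < β) (hδβ : 2 * δ + β < 1) :
    (∀ (B w : ℕ) (ε : ℝ), 0 < ε → ∃ H₀ : ℕ, ∀ H : ℕ, H₀ ≤ H →
      (({x ∈ AlgNumbers d H | ¬ ∀ (f : ℤ[X]) (m : ℕ), Small d H β f m →
        NormalIn B w ((Real.log H) ^ (1 + δ)) ε (ε * Real.log H) (aeval x f / m)}.ncard : ℕ) : ℝ) ≤
        Real.exp (-(Real.log H) ^ β) * ((AlgNumbers d H).ncard : ℝ)) ∧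
    (∀ H : ℕ, (AlgNumbers d H).Finite) ∧
    ∃ C : ℝ, 0 < C ∧ ∃ H₀ : ℕ, ∀ H : ℕ, H₀ ≤ H →
      (H : ℝ) ^ (d + 1) ≤ C * Real.log H * ((AlgNumbers d H).ncard : ℝ) := by
  classical
  obtain ⟨q, rfl⟩ : ∃ q, d = q + 2 := ⟨d - 2, by omega⟩
  have hAN : ∀ H, AlgNumbers (q + 2) H = Pool.Agent.Y933.KG.Alg (q + 2) H := fun H => rfl
  have htot : Pool.Agent.N586.AN.S_TOT2 :=
    Pool.Agent.N586.AN.t_tot2 (Pool.Agent.N586.AN.t_tn2 Pool.Agent.N586.AN.t_vm)
      Pool.Agent.N586.AN.t_br Pool.Agent.N586.AN.t_cnt Pool.Agent.N586.AN.t_sh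
  obtain ⟨C, hC, H1, hH1⟩ := Pool.Agent.N586.AN.t_alg q
  refine ⟨?_, fun H => Pool.Agent.Y933.KG.Alg_finite q H, C, hC, H1, fun H hH => ?_⟩
  swap
  · rw [hAN]
    exact hH1 H hH
  intro B w ε hε
  obtain ⟨H2, hH2⟩ := Pool.Agent.N586.AN.t_fin3 (Pool.Agent.N586.AN.t_nrm2 htot)
    Pool.Agent.N586.AN.t_alg q δ β hδ hβ hδβ B w ε hε
  refine ⟨H2, fun H hH => le_trans (Nat.cast_le.2 ?_) (hH2 H hH)⟩
  refine Set.ncard_le_ncard ?_ ((Pool.Agent.Y933.KG.Alg_finite q H).subset (Set.sep_subset _ _))
  rintro x ⟨hx, hbad⟩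
  refine ⟨hx, fun hcon => hbad fun f m hf => ?_⟩
  intro b k j s N hb hbB hk hkw hj hsN
  have h1 := hcon f m hf b k j s N hb hbB hk hkw hj hsN
  have h2 : {i : ℕ | i < N ∧ word b k (s + i) (aeval x f / m) = j} =
      (((Finset.range N).filter
        (fun i => Pool.Agent.Y933.KD.wd b k (s + i) (aeval x f / m) = j) : Finset ℕ) : Set ℕ) := by
    ext i
    simp only [Set.mem_ofPred_eq, Finset.coe_filter, Finset.mem_range]
    rfl
  rw [h2, Set.ncard_coe_finset]
  exact h1

end Pool.Agent.Results.MP_f2f914_nt.SuperlogAlgebraicNumbers
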